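import Pool.Agent.N356.SP.DefsK
import Pool.Agent.N717.LK.MQ
import Pool.Agent.N49.LK.GK3
import Pool.Agent.N123.LK.GK5a

set_option autoImplicit false

/-! Project LK (helper356): GK5b, the inequality for words. -/

namespace Pool.Agent.N199.LK

open Finset Pool.Agent.H384R3.SPk Pool.Agent.N356.SP

section Comb

variable {Γ : Type*} [AddCommGroup Γ]

open Classical in
/-- the multiplicities of a word as natural numbers -/
noncomputable def mu {n : ℕ} (x : Fin n → Γ) (v : Γ) : ℕ := (univ.filter fun i => x i = v).card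

open Classical in
lemma mu_sum {C : Finset Γ} {n : ℕ} (x : Fin n → Γ) (hx : ∀ i, x i ∈ C) :
    ∑ v ∈ C, mu x v = n := by
  have h := card_eq_sum_card_fiberwise (s := (univ : Finset (Fin n))) (t := C) (f := x)
    (fun i _ => hx i)
  rw [card_univ, Fintype.card_fin] at h
  exact h.symm

open Classical in
lemma mu_balanced {C : Finset Γ} (hne : ∀ s ∈ C, s ≠ -s) {K : ℕ} (ho : OrdC K C)
    (x : Fin (2 * K) → Γ) (hz : ∑ i, x i = 0) :
    ∀ c ∈ C, mu x c + mu x (-c) = 2 * K → mu x c = mu x (-c) := by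
  intro c hc h
  have hcc := hne c hc
  have hd : Disjoint (univ.filter fun i => x i = c) (univ.filter fun i => x i = -c) := by
    rw [disjoint_left]
    intro i hi hi'
    rw [mem_filter] at hi hi'
    exact hcc (hi.2.symm.trans hi'.2)
  have hU : (univ.filter fun i => x i = c) ∪ (univ.filter fun i => x i = -c) = univ := by
    apply eq_univ_of_card
    rw [card_union_of_disjoint hd, Fintype.card_fin]
    exact h
  have hall : ∀ i, ¬ x i = c → x i = -c := by
    intro i hi
    have h1 := mem_univ i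
    rw [← hU, mem_union, mem_filter, mem_filter] at h1
    rcases h1 with h1 | h1
    · exact absurd h1.2 hi
    · exact h1.2
  have hs : (0 : Γ) = mu x c • c + mu x (-c) • (-c) := by
    rw [← hz]
    have h2 : ∀ i, x i = if x i = c then c else -c := by
      intro i
      split_ifs with h3
      · exact h3
      · exact hall i h3
    rw [sum_congr rfl fun i _ => h2 i, sum_ite, sum_const, sum_const]
    congr 2
    unfold mu
    congr 1
    ext i
    rw [mem_filter, mem_filter]
    refine and_congr_right fun _ => ⟨hall i, fun h3 h4 => hcc (h4.symm.trans h3)⟩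
  rcases lt_trichotomy (mu x c) (mu x (-c)) with h1 | h1 | h1
  · exfalso
    obtain ⟨k, hk⟩ := Nat.exists_eq_add_of_lt h1
    have h2 : (k + 1) • c = 0 := by
      rw [hk, smul_neg, add_assoc, add_smul, neg_add, ← add_assoc, add_neg_cancel, zero_add] at hs
      exact neg_eq_zero.1 hs.symm
    exact ho c hc (k + 1) (by omega) (by omega) h2
  · exact h1
  · exfalso
    obtain ⟨k, hk⟩ := Nat.exists_eq_add_of_lt h1
    have h2 : (k + 1) • c = 0 := by
      rw [hk, smul_neg, add_assoc, add_smul, add_comm (mu x (-c) • c), add_assoc,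
        add_neg_cancel, add_zero] at hs
      exact hs.symm
    exact ho c hc (k + 1) (by omega) (by omega) h2

/-- GK5b: the inequality for words -/
theorem word_ineq
    (numer_m : ∀ {C : Finset Γ}, (∀ s ∈ C, -s ∈ C) → (∀ s ∈ C, s ≠ -s) → ∀ (m : Γ → ℕ)
      {K : ℕ}, 2 ≤ K → ∑ v ∈ C, m v = 2 * K → (∀ c ∈ C, m c + m (-c) = 2 * K → m c = m (-c)) →
      1 / 6 * (mP C (fun v => (m v : ℝ)) + mD C (fun v => (m v : ℝ))) *
          mP C (fun v => (m v : ℝ)) ≤
        4 * ((K:ℝ) - 1) * K ^ 3 - 2 * ((K:ℝ) - 1) * (2 * K - 1) * mS C (fun v => (m v : ℝ)) +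
          mS4 C (fun v => (m v : ℝ)))
    {C : Finset Γ} {θ : Γ → Γ → ℝ} (h : GoodC C θ) {K : ℕ} (hK : 2 ≤ K)
    (ho : OrdC K C) (x : Fin (2 * K) → Γ) (hx : ∀ i, x i ∈ C) (hz : ∑ i, x i = 0) :
    32 / 81 * wV4 θ x ≤
      4 * ((K:ℝ) - 1) * K ^ 3 - 2 * ((K:ℝ) - 1) * (2 * K - 1) * wS x + wS4 x := by
  have h0 : ∀ v, 0 ≤ mult x v := fun v => Nat.cast_nonneg _
  have h1 := Pool.Agent.N123.LK.wV4_le h.nn x hx
  have h2 := Pool.Agent.N49.LK.mV_le h (mult x) h0
  have h3 := Pool.Agent.N717.LK.mQ_le h (mult x) h0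
  have h4 := numer_m h.neg h.ne (mu x) hK (mu_sum x hx) (mu_balanced h.ne ho x hz)
  have h5 : (fun v => (mu x v : ℝ)) = mult x := by
    funext v
    rfl
  rw [h5] at h4
  rw [Pool.Agent.N123.LK.wS_eq h.ne x hx, Pool.Agent.N123.LK.wS4_eq h.neg h.ne x hx]
  linarith

end Comb

end Pool.Agent.N199.LK
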